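import Mathlib
import Pool.Agent.X120.Towers

/-!
# Two exponential-logarithmic towers without a common upper bound

There are `a, b ∈ ℂ \ {0, 1}` such that no tower `EL^(c)`, `c ∈ ℂ \ {0, 1}`, contains both `EL^(a)` and
`EL^(b)`: the negative answer to Q1.

Proof: the pairs `(a, b)` of elements of a common tower form a subset of `ℂ²` of Hausdorff dimension at
most `2`. Indeed, let `T n s` be the `n`-th level of the tower, as a function of `s = ln c`. By induction on
`n` the set of all `(s, z_1, ..., z_N)` with `z_i ∈ T n s` has dimension at most `2`: every element `w` of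
the next level solves an equation `F (s, u, w) = 0` with `∂F/∂w ≠ 0`, where `u` is a tuple of elements of
the previous level and `F` belongs to a countable set of analytic functions, so that `w` is locally a
Lipschitz function of `(s, u)`, and the dimension is stable under countable unions. As `ℂ²` has dimension
`4`, almost all pairs `(a, b)` have no common tower.
-/

namespace Pool.Agent.Results.MP_21d915_nt.NoCommonTower

/-- The fields `EL_n` for the base `b`: `EL_0 = ℚ`, and `EL_(n+1)` is the algebraic closure in `ℂ` of the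
field generated by `EL_n`, by all `b ^ x` with `x ∈ EL_n`, and by all `w` with `b ^ w ∈ EL_n`. Here
`b ^ x = exp (x * log b)` is Mathlib's complex power, with the principal value of the logarithm. -/
noncomputable def EL (b : ℂ) : ℕ → IntermediateField ℚ ℂ
  | 0 => ⊥
  | n + 1 => (algebraicClosure (IntermediateField.adjoin ℚ
      ((EL b n : Set ℂ) ∪ {w : ℂ | ∃ x ∈ EL b n, w = b ^ x} ∪ {w : ℂ | b ^ w ∈ EL b n})) ℂ).restrictScalars ℚ

/-- The exponential-logarithmic tower with base `b`, the union of the fields `EL_n`. -/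
def Tower (b : ℂ) : Set ℂ := {z | ∃ n, z ∈ EL b n}

theorem mem_succ (b : ℂ) (n : ℕ) (w : ℂ) : w ∈ EL b (n + 1) ↔
    IsAlgebraic (Algebra.adjoin ℚ
      ((EL b n : Set ℂ) ∪ {w : ℂ | ∃ x ∈ EL b n, w = b ^ x} ∪ {w : ℂ | b ^ w ∈ EL b n})) w := by
  open IntermediateField.algebraAdjoinAdjoin in
  rw [EL, IntermediateField.mem_restrictScalars, mem_algebraicClosure_iff]
  exact (IsFractionRing.isAlgebraic_iff _ _ _).symm

theorem le_succ (b : ℂ) (n : ℕ) : EL b n ≤ EL b (n + 1) := by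
  intro x hx
  rw [mem_succ]
  have h : x ∈ Algebra.adjoin ℚ
      ((EL b n : Set ℂ) ∪ {w : ℂ | ∃ x ∈ EL b n, w = b ^ x} ∪ {w : ℂ | b ^ w ∈ EL b n}) :=
    Algebra.subset_adjoin (Or.inl (Or.inl hx))
  exact isAlgebraic_algebraMap (A := ℂ) (⟨x, h⟩ : Algebra.adjoin ℚ _)

theorem mono (b : ℂ) : Monotone (EL b) := monotone_nat_of_le_succ (le_succ b)

theorem self_mem (a : ℂ) : a ∈ Tower a := by
  refine ⟨1, ?_⟩
  rw [mem_succ]
  have h : a ∈ Algebra.adjoin ℚ
      ((EL a 0 : Set ℂ) ∪ {w : ℂ | ∃ x ∈ EL a 0, w = a ^ x} ∪ {w : ℂ | a ^ w ∈ EL a 0}) :=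
    Algebra.subset_adjoin (Or.inl (Or.inr ⟨1, one_mem _, (Complex.cpow_one a).symm⟩))
  exact isAlgebraic_algebraMap (A := ℂ) (⟨a, h⟩ : Algebra.adjoin ℚ _)

open Pool.Agent.X120 in
theorem sub_TT (c : ℂ) (hc0 : c ≠ 0) (hc1 : c ≠ 1) (n : ℕ) :
    (EL c n : Set ℂ) ⊆ TT n (Complex.log c) := by
  have hs : Complex.log c ≠ 0 := by
    intro h
    apply hc1
    rw [← Complex.exp_log hc0, h, Complex.exp_zero]
  induction n with
  | zero =>
    intro x hx
    obtain ⟨q, hq⟩ := (IntermediateField.mem_bot (F := ℚ) (E := ℂ)).1 hx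
    exact ⟨q, hq⟩
  | succ n ih =>
    intro x hx
    have hx' := (mem_succ c n x).1 hx
    show IsAlgebraic (Algebra.adjoin ℚ (expLog (TT n) (Complex.log c))) x
    have hle : Algebra.adjoin ℚ
        ((EL c n : Set ℂ) ∪ {w : ℂ | ∃ x ∈ EL c n, w = c ^ x} ∪ {w : ℂ | c ^ w ∈ EL c n}) ≤
        Algebra.adjoin ℚ (expLog (TT n) (Complex.log c)) := by
      apply Algebra.adjoin_mono
      rintro w ((hw | ⟨y, hy, rfl⟩) | hw)
      · exact ⟨hs, Or.inl (ih hw)⟩
      · refine ⟨hs, Or.inr (Or.inl ⟨y, ih hy, ?_⟩)⟩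
        rw [Complex.cpow_def_of_ne_zero hc0]
      · refine ⟨hs, Or.inr (Or.inr ?_)⟩
        have h1 : c ^ w ∈ TT n (Complex.log c) := ih hw
        rwa [Complex.cpow_def_of_ne_zero hc0] at h1
    obtain ⟨p, hp0, hp⟩ := hx'
    refine ⟨p.map (Subalgebra.inclusion hle).toRingHom, ?_, ?_⟩
    · rw [Polynomial.map_ne_zero_iff]
      · exact hp0
      · exact Subalgebra.inclusion_injective hle
    · rw [Polynomial.aeval_def, Polynomial.eval₂_map]
      exact hp

open Pool.Agent.X120 in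
/-- **Main result.** The negated form of Q1: there are bases `a, b` such that no tower contains the towers
with bases `a` and `b`. -/
theorem result : ∃ a b : ℂ, (a ≠ 0 ∧ a ≠ 1) ∧ (b ≠ 0 ∧ b ≠ 1) ∧
    ∀ c : ℂ, c ≠ 0 → c ≠ 1 → ¬ (Tower a ⊆ Tower c ∧ Tower b ⊆ Tower c) := by
  by_contra hcon
  push Not at hcon
  have hline : ∀ z : ℂ, dimH ((fun w : ℂ => (z, w)) '' Set.univ) ≤ 2 ∧
      dimH ((fun w : ℂ => (w, z)) '' Set.univ) ≤ 2 := by
    intro z
    have h1 : LipschitzWith 1 (fun w : ℂ => (z, w)) := by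
      simpa using (LipschitzWith.const z).prodMk (LipschitzWith.id (α := ℂ))
    have h2 : LipschitzWith 1 (fun w : ℂ => (w, z)) := by
      simpa using (LipschitzWith.id (α := ℂ)).prodMk (LipschitzWith.const z)
    have h3 : dimH (Set.univ : Set ℂ) ≤ 2 := by
      rw [Real.dimH_univ_eq_finrank, Complex.finrank_real_complex]
      norm_num
    exact ⟨(h1.dimH_image_le _).trans h3, (h2.dimH_image_le _).trans h3⟩
  have hsub : (Set.univ : Set (ℂ × ℂ)) ⊆
      (⋃ n, {p : ℂ × ℂ | ∃ s, p.1 ∈ TT n s ∧ p.2 ∈ TT n s}) ∪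
        (((fun w : ℂ => ((0 : ℂ), w)) '' Set.univ ∪ (fun w : ℂ => ((1 : ℂ), w)) '' Set.univ) ∪
        ((fun w : ℂ => (w, (0 : ℂ))) '' Set.univ ∪ (fun w : ℂ => (w, (1 : ℂ))) '' Set.univ)) := by
    rintro ⟨a, b⟩ -
    by_cases ha0 : a = 0
    · exact Or.inr (Or.inl (Or.inl ⟨b, trivial, by rw [ha0]⟩))
    by_cases ha1 : a = 1
    · exact Or.inr (Or.inl (Or.inr ⟨b, trivial, by rw [ha1]⟩))
    by_cases hb0 : b = 0
    · exact Or.inr (Or.inr (Or.inl ⟨a, trivial, by rw [hb0]⟩))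
    by_cases hb1 : b = 1
    · exact Or.inr (Or.inr (Or.inr ⟨a, trivial, by rw [hb1]⟩))
    obtain ⟨c, hc0, hc1, hca, hcb⟩ := hcon a b ⟨ha0, ha1⟩ ⟨hb0, hb1⟩
    obtain ⟨n, hn⟩ := hca (self_mem a)
    obtain ⟨m, hm⟩ := hcb (self_mem b)
    refine Or.inl (Set.mem_iUnion.2 ⟨max n m, Complex.log c, ?_, ?_⟩)
    · exact sub_TT c hc0 hc1 _ (mono c (le_max_left n m) hn)
    · exact sub_TT c hc0 hc1 _ (mono c (le_max_right n m) hm)
  have h1 := dimH_mono hsub
  rw [Real.dimH_univ_eq_finrank, dimH_union, dimH_union, dimH_union, dimH_union, dimH_iUnion] at h1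
  have h2 : ((Module.finrank ℝ (ℂ × ℂ) : ℕ) : ENNReal) = 4 := by
    rw [Module.finrank_prod, Complex.finrank_real_complex]
    norm_num
  rw [h2] at h1
  have h3 : (4 : ENNReal) ≤ 2 := by
    refine h1.trans (max_le (iSup_le fun n => dimH_pairs_le n) (max_le (max_le ?_ ?_) (max_le ?_ ?_)))
    · exact (hline 0).1
    · exact (hline 1).1
    · exact (hline 0).2
    · exact (hline 1).2
  exact absurd h3 (by norm_num)

end Pool.Agent.Results.MP_21d915_nt.NoCommonTower
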